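import Pool.Agent.Helper65.OH2.Goals
import Pool.Agent.Helper53.OH.MCOR
import Pool.Agent.Helper28.Few.Macro

/-!
# Packet MCOR2: the number of changes of the machine on numbers
-/

namespace Pool.Agent.Helper94.OH2

open Pool.Agent.Helper65.LinSpace Pool.Agent.Helper78.Mpc Pool.Agent.Helper28.Ram Finset
open Pool.Agent.Helper65.OH Pool.Agent.Helper53.OH
open Pool.Agent.Helper28.Few (mcf chg chs Absorb macro_sound macro_complete)

variable {D : ℕ} {A : OneHead D} {eA eN eW c : ℕ} {w y : List Bool} {m : Prm}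

/-- The bound for the contents. -/
def QQ (m : Prm) : ℕ := (2 ^ (m.S + 1)) ^ (m.d ^ m.D)

theorem QQ_le (hP : Par A eA eN eW c w y m) : QQ m ≤ 2 ^ m.a := by
  unfold QQ
  rw [← pow_mul]
  refine Nat.pow_le_pow_right (by norm_num) ?_
  rw [hP.h_D]
  exact hP.h_a

theorem sv_lt (m : Prm) (q v : ℕ) (hv : v < QQ m) : m.sv q v < QQ m := by
  unfold Prm.sv ifz
  split_ifs
  · refine tab_lt fun i _ => ?_
    split_ifs
    · exact dig_lt (by positivity) _ _
    · exact capN_lt _ _
  · exact hv

/-- A step which does not change the contents of the cells. -/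
theorem sv_same (hG : GEO_stmt) (hS : STEP_stmt) (hP : Par A eA eN eW c w y m) (ho : m.o < m.d)
    (hF : Fns A m) {C : Conf D} {q v b : ℕ} (hq : GoodQ m C q) (hb : m.blk q = b)
    (hv : Dg m b v C) (hna : C.q.head? ≠ some true) (hok : m.ok q v ≠ 0)
    (hlen : (C.M C.h).length ≤ m.S) (hM : (A.step w y C).M = C.M) (hlt : v < QQ m) :
    m.sv q v = v := by
  obtain ⟨hblk, hcel, hbox⟩ := hG.blk m C q hP.h_D hq
  have hbz : bz m C.h = b := by rw [← hblk, hb]
  have hvq : m.vq q v = capN m.S (num (C.M C.h)) := by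
    rw [Prm.vq, hcel]
    exact hv C.h hbox hbz
  obtain ⟨h1, -⟩ := hS A eA eN eW c w y m hP ho hF C q v hq hvq hna
  have h5 : m.nw q v = num (A.write (A.inp w y C.q (C.M C.h))) := by
    rcases h1 with ⟨h3, -⟩ | ⟨-, -, h5, -⟩
    · exact absurd h3 hok
    · exact h5
  have hsv : m.sv q v = tab (2 ^ (m.S + 1)) (m.d ^ m.D) (fun c =>
      ifz (eq01 c (m.cel q)) (dig (2 ^ (m.S + 1)) v c) (m.nw q v)) := by
    rw [Prm.sv, hq.wq, accN_zero_of hna, eq01_ne hok]
    rfl
  rw [hsv]
  refine Eq.trans (tab_congr fun i _ => ?_) (tab_dig v (m.d ^ m.D) hlt)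
  rw [ifz_eq01]
  split_ifs with h
  · have e1 : (A.step w y C).M C.h = A.write (A.inp w y C.q (C.M C.h)) :=
      Function.update_self _ _ _
    have e2 : dig (2 ^ (m.S + 1)) v (cz m C.h) = num (C.M C.h) := by
      rw [hv C.h hbox hbz, capN_num hlen]
    rw [h5, ← e1, hM, h, hcel, e2]
  · rfl

/-- The inner loop without failures, with the contents. -/
theorem loop3 (hG : GEO_stmt) (hS : STEP_stmt) (hP : Par A eA eN eW c w y m) (ho : m.o < m.d)
    (hF : Fns A m) {r r' : ℕ} (hfit : A.Fits w y r m.S) (hr' : r' ≤ r)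
    (hacc : A.AcceptsAt w y r') (hmin : ∀ s < r', ¬A.AcceptsAt w y s)
    (hr : r < 2 ^ (m.κ - 1)) {b τ z₀ : ℕ} (h0 : In A w y m b τ z₀ τ) (hτ : τ ≤ r')
    (hz₀ : z₀ / 2 ^ m.sg < QQ m) (n : ℕ) :
    ∃ t ≤ r', In A w y m b τ (nrec z₀ (fun _ z => m.loc b z) n) t ∧
      (∀ i, τ ≤ i → i < t → bz m (A.conf w y i).h = b) ∧
      (t = τ + n ∨ t = r' ∨ bz m (A.conf w y t).h ≠ b) ∧
      nrec z₀ (fun _ z => m.loc b z) n / 2 ^ m.sg < QQ m ∧
      ((∀ v, τ ≤ v → v < t → (A.conf w y (v + 1)).M = (A.conf w y v).M) →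
        nrec z₀ (fun _ z => m.loc b z) n / 2 ^ m.sg = z₀ / 2 ^ m.sg) := by
  induction n with
  | zero => exact ⟨τ, hτ, h0, fun i h1 h2 => by omega, Or.inl rfl, hz₀, fun _ => rfl⟩
  | succ n ih =>
    obtain ⟨t, ht, h1, h2, h3, h4, h5⟩ := ih
    rw [nrec_succ, loc_eq]
    set z := nrec z₀ (fun _ z => m.loc b z) n with hz
    obtain ⟨hblk, -, -⟩ := hG.blk m _ _ hP.h_D h1.good
    split_ifs with hb
    · rcases Nat.lt_or_ge t r' with htr | htr
      · have hna := hmin t htr
        obtain ⟨g1, g2⟩ := step_ok hG hS hP ho hF h1.good hb h1.dg hna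
        obtain ⟨f1, f2, f3⟩ := hfit t (by omega)
        obtain ⟨f4, -, f6⟩ := hfit (t + 1) (by omega)
        have f7 := f6 (A.conf w y t).h
        have e1 : (A.conf w y (t + 1)).M (A.conf w y t).h =
            A.write (A.inp w y (A.conf w y t).q ((A.conf w y t).M (A.conf w y t).h)) :=
          Function.update_self _ _ _
        rw [e1] at f7
        have hok := g2 f2 (f3 _) f4 f7 (inBox A w y (t := t + 1) hP.pos_κ (by omega))
        rcases g1 with ⟨k1, -⟩ | ⟨-, k2, k3, k4⟩
        · exact absurd k1 hok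
        · refine ⟨t + 1, htr, ⟨by have := h1.le; omega, ?_, ?_, ?_⟩, ?_, ?_, ?_, ?_⟩
          · rw [(split_lt k2.lt).1]
            exact k2
          · rw [(split_lt k2.lt).2]
            exact k3
          · intro x hx hxb
            rw [conf_succ, k4 x hx hxb]
            exact h1.out x hx hxb
          · intro i hi1 hi2
            rcases Nat.lt_or_ge i t with h | h
            · exact h2 i hi1 h
            · have : i = t := by omega
              subst this
              rw [← hblk, hb]
          · left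
            rcases h3 with h3 | h3 | h3
            · omega
            · omega
            · exact absurd (hblk.symm.trans hb) h3
          · rw [(split_lt k2.lt).2]
            exact sv_lt m _ _ h4
          · intro hch
            rw [(split_lt k2.lt).2]
            have h6 := h5 fun v hv1 hv2 => hch v hv1 (by omega)
            have h7 : (A.step w y (A.conf w y t)).M = (A.conf w y t).M :=
              hch t (h1.le) (by omega)
            rw [sv_same hG hS hP ho hF h1.good hb h1.dg hna hok (f3 _) h7 h4]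
            exact h6
      · have htr' : t = r' := by omega
        subst htr'
        have h6 : accN (m.wq (z % 2 ^ m.sg)) = 1 := by
          rw [h1.good.wq]
          exact (accN_num _).2 hacc
        obtain ⟨h7, h8⟩ := acc_step (v := z / 2 ^ m.sg) h6
        refine ⟨t, le_rfl, ?_, h2, Or.inr (Or.inl rfl), ?_, ?_⟩
        · rw [h7, h8, Nat.mod_add_div]
          exact h1
        · rw [h7, h8, Nat.mod_add_div]
          exact h4
        · rw [h7, h8, Nat.mod_add_div]
          exact h5
    · exact ⟨t, ht, h1, h2, Or.inr (Or.inr fun h => hb (hblk.trans h)), h4, h5⟩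

/-! ### The machine on numbers -/

theorem conf_lt (m : Prm) (T : ℕ) : (m.conf T).1 < 2 ^ m.σ ∧ ∀ b, (m.conf T).2 b < 2 ^ m.a := by
  induction T with
  | zero =>
    exact ⟨Nat.mod_lt _ (by positivity), fun _ => Nat.mod_lt _ (by positivity)⟩
  | succ T ih =>
    rw [pconf_succ]
    refine ⟨Nat.mod_lt _ (by positivity), fun b => ?_⟩
    show Function.update (m.conf T).2 _ _ b < _
    by_cases h : b = m.fA (m.conf T).1
    · rw [h, Function.update_self]
      exact Nat.mod_lt _ (by positivity)
    · rw [Function.update_of_ne h]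
      exact ih.2 b

theorem run_acc {z b : ℕ} (h : accN (m.wq (z % 2 ^ m.sg)) = 1) (n : ℕ) :
    nrec z (fun _ z => m.loc b z) n = z := by
  induction n with
  | zero => rfl
  | succ n ih =>
    rw [nrec_succ, ih, loc_eq]
    split_ifs
    · obtain ⟨h1, h2⟩ := acc_step (v := z / 2 ^ m.sg) h
      rw [h1, h2, Nat.mod_add_div]
    · rfl

theorem absorb (hP : Par A eA eN eW c w y m) :
    Absorb m.fA m.fN m.fW m.q0 (fun _ => m.M0) (fun q => accN (m.wq q) = 1) := by
  intro T hT
  change m.conf (T + 1) = m.conf T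
  change accN (m.wq (m.conf T).1) = 1 at hT
  obtain ⟨h1, h2⟩ := conf_lt m T
  rw [pconf_succ]
  have h1' : (m.conf T).1 < 2 ^ m.sg := by
    have := hP.h_σ
    rw [this] at h1
    exact h1
  have h3 : (m.conf T).1 % 2 ^ m.sg = (m.conf T).1 := Nat.mod_eq_of_lt h1'
  have h4 : m.run (m.conf T).1 ((m.conf T).2 (m.fA (m.conf T).1)) =
      (m.conf T).1 + 2 ^ m.sg * (m.conf T).2 (m.fA (m.conf T).1) := by
    rw [Prm.run, h3]
    apply run_acc
    rw [(split_lt h1').1]
    exact hT
  have h5 : m.fN (m.conf T).1 ((m.conf T).2 (m.fA (m.conf T).1)) = (m.conf T).1 := by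
    rw [Prm.fN, h4, (split_lt h1').1, Nat.mod_eq_of_lt h1]
  have h6 : m.fW (m.conf T).1 ((m.conf T).2 (m.fA (m.conf T).1)) =
      (m.conf T).2 (m.fA (m.conf T).1) := by
    rw [Prm.fW, h4, (split_lt h1').2, Nat.mod_eq_of_lt (h2 _)]
  rw [h5, h6, Function.update_eq_self]

theorem chs_succ_le {A : ℕ → ℕ} {N W : ℕ → ℕ → ℕ} {q : ℕ} {M : ℕ → ℕ} (t : ℕ) :
    chs A N W q M (t + 1) ≤ chs A N W q M t + 1 := by
  classical
  unfold chs
  rw [range_add_one, filter_insert]
  split_ifs
  · exact card_insert_le _ _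
  · exact Nat.le_succ _

theorem chs_succ_of_not {A : ℕ → ℕ} {N W : ℕ → ℕ → ℕ} {q : ℕ} {M : ℕ → ℕ} {t : ℕ}
    (h : ¬chg A N W q M t) : chs A N W q M (t + 1) = chs A N W q M t := by
  classical
  unfold chs
  rw [range_add_one, filter_insert, if_neg h]

open Classical in
/-- The number of the steps before the time `t` which are new and lead into another cube. -/
noncomputable def ZZ (A : OneHead D) (w y : List Bool) (m : Prm) (t : ℕ) : ℕ :=
  ((range t).filter fun t => A.New w y t ∧ ∃ k < D, (co m.κ (A.conf w y t).h k + m.o) / m.d ≠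
    (co m.κ (A.conf w y (t + 1)).h k + m.o) / m.d).card

theorem ZZ_mono {s t : ℕ} (h : s ≤ t) : ZZ A w y m s ≤ ZZ A w y m t := by
  classical
  exact card_le_card (filter_subset_filter _ (range_mono h))

theorem ZZ_succ {s t : ℕ} (h : t ≤ s) (hs : A.New w y s ∧ ∃ k < D,
    (co m.κ (A.conf w y s).h k + m.o) / m.d ≠ (co m.κ (A.conf w y (s + 1)).h k + m.o) / m.d) :
    ZZ A w y m t + 1 ≤ ZZ A w y m (s + 1) := by
  classical
  refine le_trans (Nat.add_le_add_right (ZZ_mono (A := A) (w := w) (y := y) (m := m) h) 1) ?_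
  unfold ZZ
  rw [range_add_one (n := s), filter_insert, if_pos hs, card_insert_of_notMem (by simp)]

/-- The third invariant. -/
theorem inv3 (hG : GEO_stmt) (hS : STEP_stmt) (hP : Par A eA eN eW c w y m) (ho : m.o < m.d)
    (hF : Fns A m) {r r' : ℕ} (hfit : A.Fits w y r m.S) (hr' : r' ≤ r)
    (hacc : A.AcceptsAt w y r') (hmin : ∀ s < r', ¬A.AcceptsAt w y s)
    (hr : r < 2 ^ (m.κ - 1)) (hTc : r ≤ m.Tc) (T : ℕ) :
    (∀ b, (m.conf T).2 b < QQ m) ∧ ∃ τ ≤ r', Out A w y m (m.conf T) τ ∧
      ((τ = r' ∧ chs m.fA m.fN m.fW m.q0 (fun _ => m.M0) T ≤ ZZ A w y m r' + 1) ∨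
        (τ < r' ∧ chs m.fA m.fN m.fW m.q0 (fun _ => m.M0) T ≤ ZZ A w y m τ)) := by
  induction T with
  | zero =>
    have h0 : chs m.fA m.fN m.fW m.q0 (fun _ => m.M0) 0 = 0 := by
      classical
      simp [chs]
    refine ⟨fun b => ?_, 0, Nat.zero_le _, (start hG hP).2.2 (hfit 0 (Nat.zero_le _)).1, ?_⟩
    · show tab (2 ^ (m.S + 1)) (m.d ^ m.D) (fun _ => 1) % 2 ^ m.a < QQ m
      refine lt_of_le_of_lt (Nat.mod_le _ _) (tab_lt fun _ _ => ?_)
      exact Nat.one_lt_two_pow (by omega)
    · rw [h0]
      rcases Nat.eq_zero_or_pos r' with h | h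
      · exact Or.inl ⟨h.symm, Nat.zero_le _⟩
      · exact Or.inr ⟨h, Nat.zero_le _⟩
  | succ T ih =>
    obtain ⟨hQ, τ, hτ, h, hT⟩ := ih
    rcases hT with ⟨hτr, hT⟩ | ⟨hτr, hT⟩
    · -- the time `r'` was reached before
      have hA : accN (m.wq (m.conf T).1) = 1 := by
        rw [h.good.wq, hτr]
        exact (accN_num _).2 hacc
      have hk : m.conf (T + 1) = m.conf T := absorb hP T hA
      have hnc : ¬chg m.fA m.fN m.fW m.q0 (fun _ => m.M0) T := by
        intro hc
        apply hc
        have h1 := congrFun (congrArg Prod.snd hk) (m.fA (m.conf T).1)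
        rw [pconf_succ] at h1
        change Function.update _ _ _ _ = _ at h1
        rw [Function.update_self] at h1
        exact h1
      rw [hk, chs_succ_of_not hnc]
      exact ⟨hQ, τ, hτ, h, Or.inl ⟨hτr, hT⟩⟩
    · obtain ⟨o1, o2, o3⟩ := out_in hG hP ho h
      have hmod : (m.conf T).1 % 2 ^ m.sg < 2 ^ m.sg := Nat.mod_lt _ (by positivity)
      have hz₀ : ((m.conf T).1 % 2 ^ m.sg + 2 ^ m.sg * (m.conf T).2 (bz m (A.conf w y τ).h)) /
          2 ^ m.sg = (m.conf T).2 (bz m (A.conf w y τ).h) := (split_lt hmod).2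
      obtain ⟨t, ht, h1, h2, h3, h4, h5⟩ := loop3 hG hS hP ho hF hfit hr' hacc hmin hr
        o3 hτ (by rw [hz₀]; exact hQ _) m.Tc
      rw [hz₀] at h5
      have hstep := step_eq hG hP ho h
      set z := nrec ((m.conf T).1 % 2 ^ m.sg + 2 ^ m.sg * (m.conf T).2 (bz m (A.conf w y τ).h))
        (fun _ z => m.loc (bz m (A.conf w y τ).h) z) m.Tc with hz
      have h4a : z / 2 ^ m.sg % 2 ^ m.a = z / 2 ^ m.sg :=
        Nat.mod_eq_of_lt (lt_of_lt_of_le h4 (QQ_le hP))
      have hchg : chg m.fA m.fN m.fW m.q0 (fun _ => m.M0) T →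
          z / 2 ^ m.sg ≠ (m.conf T).2 (bz m (A.conf w y τ).h) := by
        intro hc he
        apply hc
        change m.fW (m.conf T).1 ((m.conf T).2 (m.fA (m.conf T).1)) =
          (m.conf T).2 (m.fA (m.conf T).1)
        rw [o1, Prm.fW, Prm.run, o2, ← hz, h4a, he]
      refine ⟨fun b => ?_, t, ht, ?_, ?_⟩
      · rw [hstep]
        show Function.update (m.conf T).2 _ _ b < _
        by_cases hb : b = bz m (A.conf w y τ).h
        · rw [hb, Function.update_self, h4a]
          exact h4
        · rw [Function.update_of_ne hb]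
          exact hQ b
      · rw [hstep]
        exact in_out hP h.mem h1
      · have hle := h1.le
        have hs := chs_succ_le (A := m.fA) (N := m.fN) (W := m.fW) (q := m.q0)
          (M := fun _ => m.M0) T
        rcases Nat.lt_or_ge t r' with htr | htr
        · right
          refine ⟨htr, ?_⟩
          by_cases hc : chg m.fA m.fN m.fW m.q0 (fun _ => m.M0) T
          · -- a change
            have hbt : bz m (A.conf w y t).h ≠ bz m (A.conf w y τ).h := by
              rcases h3 with h3 | h3 | h3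
              · omega
              · omega
              · exact h3
            have htτ : t ≠ τ := by
              rintro rfl
              exact hbt rfl
            obtain ⟨s, rfl⟩ : ∃ s, t = s + 1 := ⟨t - 1, by omega⟩
            have h6 : bz m (A.conf w y s).h = bz m (A.conf w y τ).h := h2 s (by omega) (by omega)
            obtain ⟨v, hv1, hv2, hv3⟩ : ∃ v, τ ≤ v ∧ v < s + 1 ∧
                (A.conf w y (v + 1)).M ≠ (A.conf w y v).M := by
              by_contra hcon
              push Not at hcon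
              exact hchg hc (h5 hcon)
            have hcr : ∃ k < D, (co m.κ (A.conf w y s).h k + m.o) / m.d ≠
                (co m.κ (A.conf w y (s + 1)).h k + m.o) / m.d := by
              refine (hG.cross m _ _ ho (inBox A w y hP.pos_κ (by omega))
                (inBox A w y hP.pos_κ (by omega))).1 ?_
              rw [h6]
              exact fun h7 => hbt h7.symm
            have hnew : A.New w y s := by
              intro u hu huh
              rcases Nat.lt_or_ge v u with hvu | hvu
              · exfalso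
                apply hbt
                rw [← huh]
                exact h2 u (by omega) (by omega)
              · exact ⟨v, hvu, by omega, hv3⟩
            have := ZZ_succ (A := A) (w := w) (y := y) (m := m) (s := s) (t := τ) (by omega)
              ⟨hnew, hcr⟩
            omega
          · rw [chs_succ_of_not hc]
            exact hT.trans (ZZ_mono hle)
        · left
          have : t = r' := by omega
          refine ⟨this, ?_⟩
          have := ZZ_mono (A := A) (w := w) (y := y) (m := m) hτr.le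
          omega

/-- MCOR2. -/
theorem MCOR2 (hG : GEO_stmt) (hS : STEP_stmt) : MCOR2_stmt := by
  intro D A
  obtain ⟨eA, cA, hA⟩ := fnN_spec A.addr_lin
  obtain ⟨eN, cN, hN⟩ := fnN_spec A.next_lin
  obtain ⟨eW, cW, hW⟩ := fnN_spec A.write_lin
  refine ⟨eA, eN, eW, cA + cN + cW, fun w y m hP ho h => ?_⟩
  have hF : Fns A m := fns hP rfl hA hN hW
  constructor
  · intro T hT
    obtain ⟨t, ht⟩ := macro_sound (A := m.fA) (N := m.fN) (W := m.fW) (q := m.q0)
      (M := fun _ => m.M0) h T
    rw [ht] at hT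
    change accN (m.wq (m.conf t).1) = 1 at hT
    rcases inv1 hG hS hP ho hF t with h | ⟨τ, h⟩
    · rw [h, Helper11.Ram.accN_zero] at hT
      omega
    · rw [h.good.wq] at hT
      exact ⟨τ, (accN_num _).1 hT⟩
  · intro r x T hfit hacc hTc hr hcard hcard2 hT
    classical
    have hex : ∃ t, A.AcceptsAt w y t := ⟨r, hacc⟩
    have hle : Nat.find hex ≤ r := Nat.find_min' hex hacc
    obtain ⟨R, hR⟩ : ∃ R, R = ((range r).filter fun t => ∃ k < D,
      (co m.κ (A.conf w y t).h k + m.o) / m.d ≠
        (co m.κ (A.conf w y (t + 1)).h k + m.o) / m.d).card := ⟨_, rfl⟩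
    have hacc' : accN (m.wq (m.conf (R + 1)).1) = 1 := by
      obtain ⟨τ, hτ, h, h3⟩ := inv2 hG hS hP ho hF hfit hle (Nat.find_spec hex)
        (fun s hs => Nat.find_min hex hs) hr hTc (R + 1)
      rcases h3 with h3 | h3
      · rw [h.good.wq, h3]
        exact (accN_num _).2 (Nat.find_spec hex)
      · exfalso
        have h4 := card_le_card (filter_subset_filter (fun t => ∃ k < D,
          (co m.κ (A.conf w y t).h k + m.o) / m.d ≠
          (co m.κ (A.conf w y (t + 1)).h k + m.o) / m.d)
          (range_subset_range.2 (hτ.trans hle)))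
        rw [← hR] at h4
        omega
    have hchs : chs m.fA m.fN m.fW m.q0 (fun _ => m.M0) (R + 1) ≤ x := by
      obtain ⟨-, τ, hτ, -, h3⟩ := inv3 hG hS hP ho hF hfit hle (Nat.find_spec hex)
        (fun s hs => Nat.find_min hex hs) hr hTc (R + 1)
      have h4 : ZZ A w y m (Nat.find hex) ≤ ZZ A w y m r := ZZ_mono hle
      have h5 : ZZ A w y m r + 1 ≤ x := hcard
      rcases h3 with ⟨-, h3⟩ | ⟨h6, h3⟩
      · omega
      · have := ZZ_mono (A := A) (w := w) (y := y) (m := m) h6.le
        omega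
    exact macro_complete (acc := fun q => accN (m.wq q) = 1) (absorb hP) hacc' hchs
      (Or.inl (by rw [← hR] at hcard2; exact hcard2)) T hT

end Pool.Agent.Helper94.OH2
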